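import Pool.Agent.H7.MIC.LLa
import Pool.Agent.H46.MicA.Out

/-!
# Own leaves near a pair

`LLP`: the hypotheses on own leaves of the local theorem at a pair, in place of `LLV` and `LLN`.
`MicOutA`, `GdkAStmt`: the statements of the local theorem at a pair over `LLP`.
-/

set_option autoImplicit false

namespace Pool.STAT

open Pool.Agent.H49.Ent Pool.Agent.H32.Dense

/-- **Own leaves near the pair** `(i, j)`, own pair `(i', j')`, radii up to `d` from `i`. -/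
structure NDat2.LLP (D : NDat2) (n z i j i' j' d U V : ℕ) (κ : ℝ) (q : D.Ω → ℝ) : Prop where
  v : ∀ i₁ U' : ℕ, i ≤ i₁ + d → i₁ ≤ i + d → U' ≤ V →
    ((n - 1 : ℕ) : ℝ) * (U' * z) * Real.log 2 - κ * z ≤
      CH q (D.vd n i₁ j (U' * z)) (fun ω => (D.s i' j' ω, (D.c i₁ j ω, D.T ω)))
  h : ∀ U' ≤ V,
    CH q (D.nd n i j (U * z)) (fun ω => (D.vd n i j (U' * z) ω, (D.c i j ω, D.T ω))) ≤
      CH q (D.nd n i j (U * z)) (fun ω => (D.ss n i j i' j' (U * z) ω,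
        (D.vd n i j (U' * z) ω, (D.c i j ω, D.T ω)))) + κ * z

namespace NDat2

variable {D : NDat2} {n z M i j i' j' d U V : ℕ} {lam gam : ℕ → ℝ} {κ κ' : ℝ} {q : D.Ω → ℝ}

theorem LLP.mono (h : D.LLP n z i j i' j' d U V κ q) (hκ : κ ≤ κ') :
    D.LLP n z i j i' j' d U V κ' q := by
  have hz0 : (0 : ℝ) ≤ z := Nat.cast_nonneg z
  have m1 : κ * (z : ℝ) ≤ κ' * z := mul_le_mul_of_nonneg_right hκ hz0
  refine ⟨fun i₁ U' a b c => ?_, fun U' a => ?_⟩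
  · have := h.v i₁ U' a b c
    linarith
  · have := h.h U' a
    linarith

/-- Fullness of the base, form of `Ful`. -/
theorem LLP.ful (h : D.LLP n z i j i' j' d U V κ q) {i₁ U' : ℕ} (h1 : i ≤ i₁ + d)
    (h2 : i₁ ≤ i + d) (h3 : U' ≤ V) : Pool.MIC.UniD.Ful D n i₁ j (U' * z) (κ * z) q
      (fun ω => (D.s i' j' ω, (D.c i₁ j ω, D.T ω))) := by
  have h4 := h.v i₁ U' h1 h2 h3
  unfold Pool.MIC.UniD.Ful
  push_cast
  linarith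

theorem LLP.ful1 (h : D.LLP n z i j i' j' d U V κ q) {i₁ : ℕ} (h1 : i ≤ i₁ + d)
    (h2 : i₁ ≤ i + d) (h3 : 1 ≤ V) : Pool.MIC.UniD.Ful D n i₁ j z (κ * z) q
      (fun ω => (D.s i' j' ω, (D.c i₁ j ω, D.T ω))) := by
  have h4 := h.ful (U' := 1) h1 h2 h3
  rwa [one_mul] at h4

/-- The form of 12's `llv_one`. -/
theorem LLP.one (h : D.LLP n z i j i' j' d U V κ q) {i₁ U' : ℕ} (h1 : i ≤ i₁ + d)
    (h2 : i₁ ≤ i + d) (h3 : U' ≤ V) :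
    ((n - 1 : ℕ) : ℝ) * (((U' * z : ℕ) : ℝ) * Real.log 2) - κ * z ≤
      CH q (D.vd n i₁ j (U' * z)) (fun ω => (D.s i' j' ω, (D.c i₁ j ω, D.T ω))) :=
  h.ful h1 h2 h3

/-- From all pairs of a cell. -/
theorem LLA.llp (h : D.LLA n z M lam gam κ q) {d₁ d₂ : ℕ} (hd : d ≤ d₁) (hi : i' + d₁ = i)
    (hj : j' = j + d₂) (hi2 : i + d ≤ M) (hj2 : j' ≤ M) (hUV : U ≤ V) (hV : V ≤ M)
    (hlam : ∀ l, 0 ≤ lam l)
    (h1 : ∀ l, 1 ≤ l → l < n → gam l * d₂ < lam l * ((d₁ : ℝ) - d))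
    (h2 : lam n * d₁ + U < gam n * d₂) : D.LLP n z i j i' j' d U V κ q := by
  have h1' : ∀ x : ℕ, d₁ ≤ x + d → ∀ l, 1 ≤ l → l < n → gam l * d₂ < lam l * x := by
    intro x hx l hl hln
    have h3 := h1 l hl hln
    have h4 : ((d₁ : ℝ) - d) ≤ x := by
      have : (d₁ : ℝ) ≤ x + d := by exact_mod_cast hx
      linarith
    exact h3.trans_le (mul_le_mul_of_nonneg_left h4 (hlam l))
  refine ⟨fun i₁ U' a b c => ?_, fun U' a => ?_⟩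
  · have h3 := h.v i₁ j (i₁ - i') d₂ U' (by omega) (by omega) (by omega) (by omega)
      (h1' _ (by omega))
    rwa [show i₁ - (i₁ - i') = i' by omega, ← hj] at h3
  · have h3 := h.h i j d₁ d₂ U U' (by omega) (by omega) (by omega) (by omega) (by omega)
      (h1' _ (by omega)) h2
    rwa [show i - d₁ = i' by omega, ← hj] at h3

end NDat2

end Pool.STAT

namespace Pool.MicA

open Finset MvPolynomial
open Pool.Agent.H49.Ent Pool.Agent.H32.Dense Pool.STK Pool.STAT Pool.MIC Pool.MIC.Frm Pool.LBL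
open Pool.BFL (Pl Pb)
open Pool.STAT.Glu (EvK)

/-- **The own shape is not truncated**, over `LLP`. -/
def GdkAStmt : Prop :=
  ∀ (n K K₀ : ℕ) (lam gam : ℕ → ℝ) (C₁ : ℝ), 1 ≤ n → 1 ≤ C₁ → K * (K + 1) ^ n ≤ K₀ →
    ∃ Cb : ℕ, ∀ e : ℝ, 0 < e → ∃ (κ : ℝ) (z₀ : ℕ), 0 < κ ∧
    ∀ (J a₀ w₀ z M i j i' j' X bb : ℕ) (D : NDat2) (q : D.Ω → ℝ), z₀ ≤ z → i < M → j ≤ M →
      i' ≤ M → j' ≤ M → Fat D n i j i' j' → D.g i j n + X ≤ D.g i' j' n → z ≤ X →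
      Cb * z ≤ bb → D.Ok2 n K J a₀ w₀ z M lam gam κ C₁ q →
      Pool.MIC.UniD.Ful D n i j z (κ * z) q (fun ω => (D.s i' j' ω, (D.c i j ω, D.T ω))) →
      Pb q (fun ω => ¬ Gdk D n K₀ z i j i' j' X bb ω) ≤ e

/-- **The local theorem at a pair**, over `LLP` with `V = B U`. -/
def MicOutA (Q : Cond2) : Prop :=
  ∀ (n K B R V : ℕ) (lam gam : ℕ → ℝ) (C₁ h : ℝ), 1 ≤ n → 1 ≤ B → 1 ≤ R → (∀ l, 1 ≤ lam l) →
    (∀ l, 0 ≤ gam l) → 0 < gam n → 1 ≤ C₁ → 0 < h → h ≤ 1 → Q n lam gam →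
    ∃ (A₂ a K₂ : ℕ) (c₁ : ℝ), V * A₂ < a ∧ 0 < c₁ ∧ ∀ m₀ : ℕ,
    ∃ (m U bb d : ℕ), m₀ ≤ m ∧ a * m ≤ U ∧ ∀ M : ℕ,
    ∃ (κ ϖ : ℝ) (z₀ : ℕ), 0 < κ ∧ 0 < ϖ ∧
    ∀ (J a₀ w₀ z i j i' j' : ℕ) (D : NDat2) (q : D.Ω → ℝ), z₀ ≤ z →
      Geo D n z M B R U d i j i' j' gam →
      D.Ok2 n K J a₀ w₀ z M lam gam κ C₁ q → D.LLP n z i j i' j' d U (B * U) κ q →
      D.NF n z M B gam h C₁ ϖ q → D.TmU J w₀ z κ q →
      ∃ H : D.Λ × ℕ → ℤ → Pl (n - 1 + 1), (∀ x v, (H x v).totalDegree ≤ K₂) ∧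
        c₁ ≤ Pb q (EvK D n (K * (K + 1) ^ n) J w₀ z i j i' j' (U * z) (bb * z)
          ((A₂ * m) * z) ((a * m) * z) H)

end Pool.MicA
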